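import Pool.Agent.N837.LP.GenR

set_option autoImplicit false

/-!
# A positive proportion of the `n` have composite quotients for all `m ≤ m₀` and `A log n` summands

Let `m₀ ≥ 1`.  For every `A ≥ 1` and `0 < η ≤ 1`, for every large `X` and every set `P` of at most
`A log X` natural numbers `p ≤ X / 2` (such as the first `A log X` primes), for a positive proportion of
the `n ≡ r (mod Q)` in `(X, X + X ^ η]` all the numbers `⌊(n - p) / m⌋`, `1 ≤ m ≤ m₀`, `p ∈ P`, are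
composite; here `r (mod Q)` is any residue class such that `Q` is divisible by all `m ≤ m₀`.
-/

namespace Pool.Agent.Results.MP_4011c3_nt.LateSummands

theorem result (δ : ℝ) (hδ : 0 < δ) :
    ∃ C : ℝ, 0 < C ∧ ∀ (m₀ : ℕ) (A η κ : ℝ), 1 ≤ m₀ → 1 ≤ A → 0 < η → η ≤ 1 → 1 ≤ κ →
    ∃ X₀ : ℝ, ∀ X : ℝ, X₀ ≤ X →
    ∀ Q : ℕ, 0 < Q → (∀ m : ℕ, 1 ≤ m → m ≤ m₀ → m ∣ Q) → (Q : ℝ) ≤ X ^ (η / 2) →
    (Q : ℝ) ≤ κ * Q.totient → ∀ r : ℤ,
    ∀ P : Finset ℕ, (P.card : ℝ) ≤ A * Real.log X → (∀ p ∈ P, (p : ℝ) ≤ X / 2) →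
    X ^ η / Q * Real.exp (-Real.exp (C * m₀ * A * κ ^ 2 / η)) ≤
      (({n : ℕ | X < n ∧ (n : ℝ) ≤ X + X ^ η ∧ (Q : ℤ) ∣ n - r ∧
        ∀ m : ℕ, 1 ≤ m → m ≤ m₀ → ∀ p ∈ P,
          ∃ q : ℕ, q.Prime ∧ (q : ℝ) ≤ X ^ (η * δ) ∧ q ∣ (n - p) / m ∧
            q < (n - p) / m}).ncard : ℝ) := by
  classical
  obtain ⟨C, hC, h⟩ := Pool.Agent.N837.LP.genR δ hδ
  refine ⟨C, hC, fun m₀ A η κ hm₀ hA hη hη1 hκ => ?_⟩
  have hm₀R : (1:ℝ) ≤ m₀ := by exact_mod_cast hm₀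
  obtain ⟨X₀, hX₀⟩ := h (m₀ * A) η 2 κ (by nlinarith) hη hη1 (by norm_num) hκ
  refine ⟨max X₀ (max 4 m₀), fun X hX Q hQ hmQ hQX hQφ r P hP hPX => ?_⟩
  have hX4 : 4 ≤ X := (le_max_left _ _).trans ((le_max_right _ _).trans hX)
  have hXm : (m₀:ℝ) ≤ X := (le_max_right _ _).trans ((le_max_right _ _).trans hX)
  have hX0 : 0 < X := by linarith
  have hXη : X ^ η ≤ X := by
    calc X ^ η ≤ X ^ (1:ℝ) := Real.rpow_le_rpow_of_exponent_le (by linarith) hη1
      _ = X := Real.rpow_one X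
  set B : Finset ℤ := ((Finset.Icc 1 m₀) ×ˢ P).image
    (fun z : ℕ × ℕ => (z.2 : ℤ) + (r - z.2) % (z.1 : ℤ)) with hB
  have hBcard : (B.card : ℝ) ≤ m₀ * A * Real.log X := by
    have e1 : B.card ≤ m₀ * P.card := by
      refine Finset.card_image_le.trans ?_
      rw [Finset.card_product, Nat.card_Icc]
      simp
    have e2 : (B.card : ℝ) ≤ m₀ * P.card := by exact_mod_cast e1
    calc (B.card : ℝ) ≤ m₀ * P.card := e2
      _ ≤ m₀ * (A * Real.log X) := mul_le_mul_of_nonneg_left hP (by linarith)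
      _ = _ := by ring
  have h1 := hX₀ X ((le_max_left _ _).trans hX) Q hQ hQX hQφ B hBcard
    (by
      intro b hb
      rw [hB, Finset.mem_image] at hb
      obtain ⟨⟨m, p⟩, hz, rfl⟩ := hb
      rw [Finset.mem_product, Finset.mem_Icc] at hz
      obtain ⟨⟨hm1, hm2⟩, hp⟩ := hz
      have hm0 : (0:ℤ) < m := by exact_mod_cast hm1
      have e0 : (0:ℤ) ≤ (r - p) % (m : ℤ) := Int.emod_nonneg _ hm0.ne'
      have e1 : (r - p) % (m : ℤ) < m := Int.emod_lt_of_pos _ hm0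
      have e0R : (0:ℝ) ≤ (((r - p) % (m : ℤ) : ℤ) : ℝ) := by exact_mod_cast e0
      have e1R : (((r - p) % (m : ℤ) : ℤ) : ℝ) ≤ m₀ := by
        have : (r - p) % (m : ℤ) ≤ m₀ := by
          have : (m : ℤ) ≤ m₀ := by exact_mod_cast hm2
          linarith
        exact_mod_cast this
      have e2 := hPX p hp
      have e3 : (0:ℝ) ≤ p := Nat.cast_nonneg _
      have e4 : X ^ (2:ℝ) = X * X := by
        rw [show (2:ℝ) = ((2:ℕ):ℝ) by norm_num, Real.rpow_natCast]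
        ring
      rw [e4, Int.cast_add, Int.cast_natCast, abs_of_nonneg (by linarith)]
      nlinarith) r
  have h2 : C * (m₀ * A) * κ ^ 2 / η = C * m₀ * A * κ ^ 2 / η := by ring
  rw [h2] at h1
  refine h1.trans (Nat.cast_le.2 (Set.ncard_le_ncard ?_ ?_))
  · intro n hn
    obtain ⟨q1, q2, q3, q4⟩ := hn
    refine ⟨q1, q2, q3, fun m hm1 hm2 p hp => ?_⟩
    have hbB : (p : ℤ) + (r - p) % (m : ℤ) ∈ B := by
      rw [hB, Finset.mem_image]
      exact ⟨(m, p), by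
        rw [Finset.mem_product, Finset.mem_Icc]
        exact ⟨⟨hm1, hm2⟩, hp⟩, rfl⟩
    obtain ⟨q, p1, p2, p3, p4, p5⟩ := q4 _ hbB
    have hm0 : (0:ℤ) < m := by exact_mod_cast hm1
    have hmQ' : (m : ℤ) ∣ Q := by exact_mod_cast hmQ m hm1 hm2
    have hpn : p < n := by
      have e2 := hPX p hp
      have : (p : ℝ) < n := by linarith
      exact_mod_cast this
    have e1 : ((n : ℤ) - p) % (m : ℤ) = (r - p) % (m : ℤ) := by
      have e2 : (m : ℤ) ∣ (n - p) - (r - p) := by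
        have : ((n : ℤ) - p) - (r - p) = n - r := by ring
        rw [this]
        exact hmQ'.trans q3
      have e3 : (r - (p : ℤ)) ≡ ((n : ℤ) - p) [ZMOD m] := Int.modEq_iff_dvd.2 e2
      exact e3.symm
    have e2 : (n : ℤ) - ((p : ℤ) + (r - p) % (m : ℤ)) = m * (((n - p) / m : ℕ) : ℤ) := by
      have e3 : ((n - p : ℕ) : ℤ) = (n : ℤ) - p := by rw [Nat.cast_sub hpn.le]
      have e4 : (((n - p) / m : ℕ) : ℤ) = ((n : ℤ) - p) / m := by
        rw [← e3]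
        exact Int.natCast_div _ _
      rw [e4, ← e1]
      have := Int.emod_add_mul_ediv ((n : ℤ) - p) (m : ℤ)
      linarith
    rw [e2] at p4 p5
    have hqm : ¬ (q : ℤ) ∣ (m : ℤ) := by
      intro h
      exact p3 (by
        have : (q : ℤ) ∣ (Q : ℤ) := h.trans hmQ'
        exact_mod_cast this)
    have hqP : Prime (q : ℤ) := Nat.prime_iff_prime_int.1 p1
    refine ⟨q, p1, p2, ?_, ?_⟩
    · rcases hqP.dvd_or_dvd p4 with h | h
      · exact absurd h hqm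
      · exact_mod_cast h
    · rw [abs_of_nonneg (by positivity)] at p5
      have e5 : (m : ℤ) ≤ Q := by exact_mod_cast Nat.le_of_dvd hQ (hmQ m hm1 hm2)
      have e6 : (q : ℤ) * m ≤ q * Q := mul_le_mul_of_nonneg_left e5 (by positivity)
      have e7 : (m : ℤ) * q < m * (((n - p) / m : ℕ) : ℤ) := by linarith
      have e8 := lt_of_mul_lt_mul_left e7 hm0.le
      exact_mod_cast e8
  · apply (Set.finite_Iic ⌊X + X ^ η⌋₊).subset
    intro a ha
    obtain ⟨_, h2, _⟩ := ha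
    rw [Set.mem_Iic]
    exact Nat.le_floor h2

end Pool.Agent.Results.MP_4011c3_nt.LateSummands
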