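import Mathlib
import Pool.Agent.N909.TF.Vec

set_option autoImplicit false

/-!
# Goldbach type representations with a companion value in every sequential random model of the primes

The question is whether for every admissible pair `(m, n)` there is a prime `p < n` such that
`q = ⌊(n - p) / m⌋` and `q ^ 2 - 2` are prime.  We answer it for every `m` and all large admissible
`n`, with an asymptotic formula for the number of such `p`, in EVERY sequential random model of the
primes: the integers are decided one after the other, only integers coprime to a fixed `Q` can be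
chosen, and the conditional probability of choosing `n + 1` (coprime to `Q`) given the past is
asymptotic to `(Q / φ(Q)) / log n`.  No independence is assumed.
-/

open MeasureTheory Filter
open scoped Topology

namespace Pool.Agent.Results.MP_4011c3_nt.SievedModels

/-- the admissible pairs of the problem -/
def adm (m n : ℕ) : Prop :=
  1 ≤ m ∧ 2 * m + 1 < n ∧ ((m = 1 ∧ Even n) ∨ (m = 3 ∧ n % 6 ≠ 1) ∨ m = 2 ∨ 4 ≤ m)

/-- the `p < n` for which, with `q = ⌊(n - p) / m⌋`, the integers `p`, `q` and `q ^ 2 - 2` are at least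
`2`, different from each other and in `S` -/
def reps (S : Set ℕ) (m n : ℕ) : Set ℕ :=
  {p | 2 ≤ p ∧ p < n ∧ 2 ≤ (n - p) / m ∧ p ≠ (n - p) / m ∧ p ≠ ((n - p) / m) ^ 2 - 2 ∧
    (n - p) / m ≠ ((n - p) / m) ^ 2 - 2 ∧ p ∈ S ∧ (n - p) / m ∈ S ∧ ((n - p) / m) ^ 2 - 2 ∈ S}

open Pool.Agent.N909.TF

/-- the possible `p` -/
def fam (m n : ℕ) : Finset ℕ := (Finset.Ioo 1 n).filter (fun p => 2 ≤ (n - p) / m ∧ p ≠ (n - p) / m ∧
  p ≠ ((n - p) / m) ^ 2 - 2 ∧ (n - p) / m ≠ ((n - p) / m) ^ 2 - 2)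

/-- the numbers which have to be chosen -/
def tau (m n p : ℕ) : Fin 3 → ℕ := ![p, (n - p) / m, ((n - p) / m) ^ 2 - 2]

/-- their sizes -/
noncomputable def kap : Fin 3 → ℝ := ![1, 1, 2]

lemma mem_vs (m n p t : ℕ) :
    t ∈ vs (tau m n) p ↔ t = p ∨ t = (n - p) / m ∨ t = ((n - p) / m) ^ 2 - 2 := by
  unfold vs tau
  rw [Finset.mem_image]
  constructor
  · rintro ⟨i, -, hi⟩
    fin_cases i
    · exact Or.inl hi.symm
    · exact Or.inr (Or.inl hi.symm)
    · exact Or.inr (Or.inr hi.symm)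
  · rintro (h | h | h)
    · exact ⟨0, Finset.mem_univ _, h.symm⟩
    · exact ⟨1, Finset.mem_univ _, h.symm⟩
    · exact ⟨2, Finset.mem_univ _, h.symm⟩

lemma forall_vs (m n p : ℕ) (P : ℕ → Prop) :
    (∀ t ∈ vs (tau m n) p, P t) ↔ P p ∧ P ((n - p) / m) ∧ P (((n - p) / m) ^ 2 - 2) := by
  constructor
  · intro h
    exact ⟨h _ ((mem_vs m n p _).2 (Or.inl rfl)), h _ ((mem_vs m n p _).2 (Or.inr (Or.inl rfl))),
      h _ ((mem_vs m n p _).2 (Or.inr (Or.inr rfl)))⟩
  · rintro ⟨h1, h2, h3⟩ t ht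
    rcases (mem_vs m n p t).1 ht with rfl | rfl | rfl
    · exact h1
    · exact h2
    · exact h3

open Classical in
lemma reps_eq (S : Set ℕ) (m n : ℕ) :
    reps S m n = (((fam m n).filter (fun p => ∀ t ∈ vs (tau m n) p, t ∈ S) : Finset ℕ) : Set ℕ) := by
  ext p
  unfold reps fam
  simp only [Set.mem_ofPred_eq, Finset.coe_filter, Finset.mem_filter, Finset.mem_Ioo]
  rw [forall_vs m n p (fun t => t ∈ S)]
  constructor
  · rintro ⟨h1, h2, h3, h4, h5, h6, h7⟩
    exact ⟨⟨⟨by omega, h2⟩, h3, h4, h5, h6⟩, h7⟩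
  · rintro ⟨⟨⟨h1, h2⟩, h3, h4, h5, h6⟩, h7⟩
    exact ⟨by omega, h2, h3, h4, h5, h6, h7⟩

lemma reps_cop (Q m n : ℕ) :
    (reps {k : ℕ | Nat.Coprime k Q} m n).ncard = (cop (fam m n) (vs (tau m n)) Q).card := by
  classical
  rw [reps_eq, Set.ncard_coe_finset]
  unfold cop
  congr 1
  ext p
  simp only [Finset.mem_filter, Set.mem_ofPred_eq]

lemma reps_cho {Ω : Type} (A : ℕ → Set Ω) (m n : ℕ) (ω : Ω) :
    (reps {k : ℕ | ω ∈ A k} m n).ncard = (cho A (fam m n) (vs (tau m n)) ω).card := by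
  classical
  rw [reps_eq, Set.ncard_coe_finset]
  unfold cho
  congr 1

/-! ### the local conditions -/

lemma cop_of (N m k c : ℕ) (h : N + c = m * k ∨ N = m * k + c) (hc : Nat.Coprime c m) : Nat.Coprime N m := by
  by_contra hne
  obtain ⟨p, hp, hpN, hpm⟩ := Nat.Prime.not_coprime_iff_dvd.1 hne
  have h1 : p ∣ m * k := Dvd.dvd.mul_right hpm k
  have h2 : p ∣ c := by
    rcases h with h | h
    · rw [← h] at h1
      exact (Nat.dvd_add_right hpN).1 h1
    · rw [h] at hpN
      exact (Nat.dvd_add_right h1).1 hpN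
  exact (Nat.Prime.not_coprime_iff_dvd.2 ⟨p, hp, h2, hpm⟩) hc

/-- the choice of the remainder `r` of `n - p` modulo `m` -/
lemma loc (m n : ℕ) (h : adm m n) : ∃ r, r < m ∧ (n - r).Coprime m ∧ Odd (n - r + m) := by
  obtain ⟨hm, hn, hcase⟩ := h
  have hdm := Nat.div_add_mod (n - 1) m
  have hlt := Nat.mod_lt (n - 1) (show 0 < m by omega)
  generalize hk : (n - 1) / m = k at *
  generalize ha : (n - 1) % m = a at *
  rcases Nat.even_or_odd m with hme | hmo
  · refine ⟨a, hlt, ?_, ?_⟩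
    · exact cop_of (n - a) m k 1 (Or.inr (by omega)) (Nat.coprime_one_left m)
    · have h1 : n - a = m * k + 1 := by omega
      rw [h1]
      have h2 : Even (m * k) := hme.mul_right k
      obtain ⟨t, ht⟩ := h2
      obtain ⟨s, hs⟩ := hme
      exact ⟨t + s, by omega⟩
  · have h2m : Nat.Coprime 2 m := Nat.coprime_two_left.2 hmo
    obtain ⟨s, hs⟩ := hmo
    rcases Nat.eq_zero_or_pos a with ha0 | ha0
    · rcases Nat.even_or_odd n with hne | hno
      · obtain ⟨t, ht⟩ := hne
        refine ⟨0, by omega, ?_, ⟨t + s, by omega⟩⟩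
        rw [Nat.sub_zero]
        exact cop_of n m k 1 (Or.inr (by omega)) (Nat.coprime_one_left m)
      · obtain ⟨t, ht⟩ := hno
        have hm5 : 5 ≤ m := by
          rcases hcase with ⟨_, ⟨u, hu⟩⟩ | ⟨h3, h6⟩ | h2 | h4
          · omega
          · exfalso
            apply h6
            subst h3
            omega
          · omega
          · omega
        refine ⟨3, by omega, ?_, ⟨t + s - 1, by omega⟩⟩
        exact cop_of (n - 3) m k 2 (Or.inl (by omega)) h2m
    · rcases Nat.even_or_odd (n - a) with hne | hno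
      · obtain ⟨t, ht⟩ := hne
        refine ⟨a, hlt, ?_, ⟨t + s, by omega⟩⟩
        exact cop_of (n - a) m k 1 (Or.inr (by omega)) (Nat.coprime_one_left m)
      · obtain ⟨t, ht⟩ := hno
        refine ⟨a - 1, by omega, ?_, ⟨t + s + 1, by omega⟩⟩
        exact cop_of (n - (a - 1)) m k 2 (Or.inr (by omega)) h2m

/-- a residue class of admissible `q` -/
lemma local_ok (Q m N : ℕ) (hQ : 0 < Q) (hc : N.Coprime m) (ho : Odd (N + m)) :
    ∃ x : ℕ, ∀ q, q ≡ x [MOD Q] → 2 ≤ q → m * q ≤ N →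
      Nat.Coprime q Q ∧ Nat.Coprime (q ^ 2 - 2) Q ∧ Nat.Coprime (N - m * q) Q := by
  classical
  obtain ⟨x, hx⟩ := crt_primes Q (fun l => if (N : ZMod l) = m then l - 1 else 1)
  refine ⟨x, fun q hq hq2 hqN => ?_⟩
  have key : ∀ l, l.Prime → l ∣ Q → ((q : ZMod l) = 1 ∨ (q : ZMod l) = -1) ∧ (N : ZMod l) ≠ m * q := by
    intro l hl hlQ
    have hf : Fact l.Prime := ⟨hl⟩
    have h1 := (ZMod.natCast_eq_natCast_iff _ _ _).2 (hx q hq l hl hlQ hQ.ne')
    by_cases h : (N : ZMod l) = m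
    · rw [if_pos h] at h1
      have h2 : (q : ZMod l) = -1 := by
        rw [h1, Nat.cast_sub hl.one_lt.le]
        simp
      refine ⟨Or.inr h2, ?_⟩
      rw [h2]
      intro h3
      have h4 : ((N + m : ℕ) : ZMod l) = 0 := by
        push_cast
        rw [h3]
        ring
      rw [ZMod.natCast_eq_zero_iff] at h4
      have h5 : (2 : ZMod l) * N = 0 := by
        have : (2 : ZMod l) * N = N + N := by ring
        rw [this]
        nth_rewrite 1 [h3]
        rw [h]
        ring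
      rcases mul_eq_zero.1 h5 with h6 | h6
      · have h7 : l ∣ 2 := by
          rw [← ZMod.natCast_eq_zero_iff]
          exact_mod_cast h6
        have h8 : l = 2 := (Nat.prime_dvd_prime_iff_eq hl Nat.prime_two).1 h7
        rw [h8] at h4
        exact (Nat.not_even_iff_odd.2 ho) (even_iff_two_dvd.2 h4)
      · have h7 : l ∣ N := (ZMod.natCast_eq_zero_iff _ _).1 h6
        have h8 : l ∣ m := by
          rw [← ZMod.natCast_eq_zero_iff, ← h]
          exact h6
        exact (Nat.Prime.not_coprime_iff_dvd.2 ⟨l, hl, h7, h8⟩) hc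
    · rw [if_neg h] at h1
      have h2 : (q : ZMod l) = 1 := by
        rw [h1]
        simp
      refine ⟨Or.inl h2, ?_⟩
      rw [h2, mul_one]
      exact h
  have hsq : 2 ≤ q ^ 2 := by nlinarith
  refine ⟨?_, ?_, ?_⟩
  · rw [coprime_iff_primes]
    intro l hl hlQ hdvd
    have hf : Fact l.Prime := ⟨hl⟩
    have h0 : (q : ZMod l) = 0 := (ZMod.natCast_eq_zero_iff _ _).2 hdvd
    rcases (key l hl hlQ).1 with h | h
    · rw [h0] at h
      exact zero_ne_one h
    · rw [h0] at h
      have : (1 : ZMod l) = 0 := by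
        have h2 := congrArg Neg.neg h
        simpa using h2.symm
      exact one_ne_zero this
  · rw [coprime_iff_primes]
    intro l hl hlQ hdvd
    have hf : Fact l.Prime := ⟨hl⟩
    have h0 : ((q ^ 2 - 2 : ℕ) : ZMod l) = 0 := (ZMod.natCast_eq_zero_iff _ _).2 hdvd
    rw [Nat.cast_sub hsq] at h0
    push_cast at h0
    have h1 : (q : ZMod l) ^ 2 = 1 := by
      rcases (key l hl hlQ).1 with h | h <;> rw [h] <;> ring
    rw [h1] at h0
    have : (1 : ZMod l) = 0 := by
      have h2 : (1 : ZMod l) = -(1 - 2) := by ring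
      rw [h2, h0, neg_zero]
    exact one_ne_zero this
  · rw [coprime_iff_primes]
    intro l hl hlQ hdvd
    have hf : Fact l.Prime := ⟨hl⟩
    have h0 : ((N - m * q : ℕ) : ZMod l) = 0 := (ZMod.natCast_eq_zero_iff _ _).2 hdvd
    rw [Nat.cast_sub hqN] at h0
    push_cast at h0
    exact (key l hl hlQ).2 (sub_eq_zero.1 h0)

/-! ### many triples coprime to `Q` -/

lemma many (Q m : ℕ) (hQ : 0 < Q) (hm : 1 ≤ m) :
    ∀ᶠ n : ℕ in atTop ⊓ 𝓟 {n : ℕ | adm m n},
      1 / (8 * m * (Q : ℝ)) * (n : ℝ) ^ (1 : ℝ) ≤ (cop (fam m n) (vs (tau m n)) Q).card := by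
  classical
  rw [eventually_inf_principal]
  have h1 : ∀ᶠ n : ℕ in atTop, 40 * (m : ℝ) * Q ≤ √(n : ℝ) :=
    (Real.tendsto_sqrt_atTop.comp tendsto_natCast_atTop_atTop).eventually_ge_atTop _
  filter_upwards [h1, eventually_ge_atTop (4 * m + 16)] with n g1 g2 hadm
  obtain ⟨r, hr, hc, ho⟩ := loc m n hadm
  obtain ⟨x, hx⟩ := local_ok Q m (n - r) hQ hc ho
  set M : ℕ := n / (4 * m) with hM
  set z : ℕ := Nat.sqrt n + 2 with hz
  have hMm : 4 * m * M ≤ n := Nat.mul_div_le n (4 * m)
  have h2 := many_class Q x M hQ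
  set G : Finset ℕ := ((Finset.Ioc 0 M).filter (fun q => q ≡ x [MOD Q])) with hG
  have h3 : G.card ≤ (G.filter (fun q => z < q)).card + z := by
    have e1 := Finset.card_filter_add_card_filter_not (s := G) (fun q => z < q)
    have e2 : (G.filter (fun q => ¬ z < q)).card ≤ z := by
      calc (G.filter (fun q => ¬ z < q)).card ≤ (Finset.Ioc 0 z).card := by
            apply Finset.card_le_card
            intro q hq
            rw [hG, Finset.mem_filter, Finset.mem_filter, Finset.mem_Ioc] at hq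
            rw [Finset.mem_Ioc]
            exact ⟨hq.1.1.1, not_lt.1 hq.2⟩
        _ = z := by simp
    omega
  have h4 : (G.filter (fun q => z < q)).card ≤ (cop (fam m n) (vs (tau m n)) Q).card := by
    refine Finset.card_le_card_of_injOn (fun q => n - r - m * q) ?_ ?_
    · intro q hq
      rw [Finset.mem_coe, hG, Finset.mem_filter, Finset.mem_filter, Finset.mem_Ioc] at hq
      obtain ⟨⟨⟨q0, q1⟩, q2⟩, q3⟩ := hq
      have k1 : 4 * (m * q) ≤ n := by
        calc 4 * (m * q) = 4 * m * q := by ring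
          _ ≤ 4 * m * M := Nat.mul_le_mul_left _ q1
          _ ≤ n := hMm
      have k2 : q ≤ m * q := Nat.le_mul_of_pos_left q hm
      have k3 : n < (Nat.sqrt n + 1) ^ 2 := Nat.lt_succ_sqrt' n
      have k4 : n < q ^ 2 - 2 := by
        have : (Nat.sqrt n + 3) ^ 2 ≤ q ^ 2 := Nat.pow_le_pow_left (by omega) 2
        have e : (Nat.sqrt n + 3) ^ 2 = (Nat.sqrt n + 1) ^ 2 + 4 * Nat.sqrt n + 8 := by ring
        omega
      have k5 : n - (n - r - m * q) = r + m * q := by omega
      have k6 : (n - (n - r - m * q)) / m = q := by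
        rw [k5, Nat.add_mul_div_left _ _ hm, Nat.div_eq_of_lt hr, zero_add]
      have k7 : m * q ≤ n - r := by omega
      obtain ⟨l1, l2, l3⟩ := hx q q2 (by omega) k7
      show n - r - m * q ∈ (cop (fam m n) (vs (tau m n)) Q)
      unfold cop fam
      rw [Finset.mem_filter, Finset.mem_filter, Finset.mem_Ioo, forall_vs m n _ (fun t => Nat.Coprime t Q), k6]
      refine ⟨⟨⟨by omega, by omega⟩, by omega, by omega, by omega, by omega⟩, l3, l1, l2⟩
    · intro a ha b hb hab
      rw [Finset.mem_coe, hG, Finset.mem_filter, Finset.mem_filter, Finset.mem_Ioc] at ha hb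
      simp only at hab
      have k1 : 4 * (m * a) ≤ n := by
        calc 4 * (m * a) = 4 * m * a := by ring
          _ ≤ 4 * m * M := Nat.mul_le_mul_left _ ha.1.1.2
          _ ≤ n := hMm
      have k2 : 4 * (m * b) ≤ n := by
        calc 4 * (m * b) = 4 * m * b := by ring
          _ ≤ 4 * m * M := Nat.mul_le_mul_left _ hb.1.1.2
          _ ≤ n := hMm
      have : m * a = m * b := by omega
      exact Nat.eq_of_mul_eq_mul_left hm this
  have hm' : (1 : ℝ) ≤ m := by exact_mod_cast hm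
  have hQ' : (1 : ℝ) ≤ Q := by exact_mod_cast hQ
  have h5 : ((M / Q : ℕ) : ℝ) ≤ (cop (fam m n) (vs (tau m n)) Q).card + z := by
    exact_mod_cast h2.trans (h3.trans (Nat.add_le_add_right h4 z))
  have h6 : (z : ℝ) ≤ √(n : ℝ) + 2 := by
    rw [hz]
    push_cast
    have : (Nat.sqrt n : ℝ) ≤ √(n : ℝ) := Real.nat_sqrt_le_real_sqrt
    linarith
  have h7 : (n : ℝ) / (4 * m) - 1 ≤ M := by
    have := Nat.lt_div_mul_add (a := n) (b := 4 * m) (by omega)
    have h8 : (n : ℝ) < (M : ℝ) * (4 * m) + 4 * m := by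
      rw [hM]
      exact_mod_cast this
    rw [sub_le_iff_le_add, div_le_iff₀ (by linarith)]
    linarith
  have h8 : (M : ℝ) / Q - 1 ≤ ((M / Q : ℕ) : ℝ) := by
    have h9 := Nat.lt_div_mul_add (a := M) hQ
    have h10 : (M : ℝ) < ((M / Q : ℕ) : ℝ) * Q + Q := by exact_mod_cast h9
    rw [sub_le_iff_le_add, div_le_iff₀ (by linarith)]
    linarith
  have h9 : (n : ℝ) / (4 * m * Q) - 1 ≤ (M : ℝ) / Q := by
    calc (n : ℝ) / (4 * m * Q) - 1 ≤ (n : ℝ) / (4 * m * Q) - 1 / Q := by
          have : 1 / (Q : ℝ) ≤ 1 := by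
            rw [div_le_one (by linarith)]
            exact hQ'
          linarith
      _ = ((n : ℝ) / (4 * m) - 1) / Q := by
          field_simp
      _ ≤ (M : ℝ) / Q := div_le_div_of_nonneg_right h7 (by linarith)
  have h10 : √(n : ℝ) + 4 ≤ (n : ℝ) / (8 * m * Q) := by
    rw [le_div_iff₀ (by positivity)]
    have hs : √(n : ℝ) * √(n : ℝ) = n := Real.mul_self_sqrt (Nat.cast_nonneg n)
    have hmQ : 1 ≤ (m : ℝ) * Q := by nlinarith
    have hs1 : 1 ≤ √(n : ℝ) := by nlinarith
    have e1 : 40 * ((m : ℝ) * Q) * √(n : ℝ) ≤ n := by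
      calc 40 * ((m : ℝ) * Q) * √(n : ℝ) ≤ √(n : ℝ) * √(n : ℝ) :=
            mul_le_mul_of_nonneg_right (by linarith) (by linarith)
        _ = n := hs
    have e2 : 32 * ((m : ℝ) * Q) * 1 ≤ 32 * ((m : ℝ) * Q) * √(n : ℝ) :=
      mul_le_mul_of_nonneg_left hs1 (by linarith)
    have e3 : (√(n : ℝ) + 4) * (8 * m * Q) = 8 * ((m : ℝ) * Q) * √(n : ℝ) + 32 * ((m : ℝ) * Q) * 1 := by ring
    rw [e3]
    linarith
  have h11 : (n : ℝ) / (4 * m * Q) = (n : ℝ) / (8 * m * Q) + (n : ℝ) / (8 * m * Q) := by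
    field_simp
    ring
  rw [Real.rpow_one, one_div, inv_mul_eq_div]
  linarith

/-! ### few exceptional `p` -/

lemma few (m : ℕ) (hm : 1 ≤ m) (δ : ℝ) (hδ : 0 < δ) : ∃ η : ℝ, 0 < η ∧ ∀ᶠ n : ℕ in atTop,
    ((farv (fam m n) (tau m n) kap (Real.log n) δ).card : ℝ) ≤ (n : ℝ) ^ (1 - η : ℝ) := by
  classical
  set d : ℝ := min (δ / 4) (1 / 4) with hd
  have hd0 : 0 < d := by rw [hd]; positivity
  have hd1 : d ≤ 1 / 4 := min_le_right _ _
  have hdδ : d ≤ δ / 4 := min_le_left _ _
  refine ⟨d / 2, by positivity, ?_⟩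
  have h1 : ∀ᶠ n : ℕ in atTop, (2 * (m : ℝ) + 3) ≤ (n : ℝ) ^ (d / 2 : ℝ) :=
    ((tendsto_rpow_atTop (by positivity : (0:ℝ) < d / 2)).comp tendsto_natCast_atTop_atTop).eventually_ge_atTop _
  have h2 : ∀ᶠ n : ℕ in atTop, Real.log 2 / (δ / 2) ≤ Real.log n :=
    (Real.tendsto_log_atTop.comp tendsto_natCast_atTop_atTop).eventually_ge_atTop _
  filter_upwards [near_log 1 d hd0, h1, h2, eventually_gt_atTop 1] with n g1 g2 g4 g3
  have hn : (1 : ℝ) < n := by exact_mod_cast g3
  have hn0 : (0 : ℝ) < n := by linarith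
  have hL : 0 < Real.log n := Real.log_pos hn
  have hlog2 : Real.log 2 ≤ δ / 2 * Real.log n := by
    rw [div_le_iff₀ (by positivity)] at g4
    linarith
  set y : ℝ := (n : ℝ) ^ (1 - d) with hy
  have hy1 : 1 ≤ y := Real.one_le_rpow hn.le (by linarith)
  have hsub : farv (fam m n) (tau m n) kap (Real.log n) δ ⊆
      Finset.range (⌊y⌋₊ + 1) ∪ (Finset.Ioc 0 (⌊(m : ℝ) * (y + 1)⌋₊)).image (fun j => n - j) := by
    intro p hp
    unfold farv fam at hp
    rw [Finset.mem_filter, Finset.mem_filter, Finset.mem_Ioo] at hp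
    obtain ⟨⟨⟨p1, p2⟩, p3, -⟩, i, hi⟩ := hp
    rw [Finset.mem_union]
    by_contra hcon
    push Not at hcon
    obtain ⟨c1, c2⟩ := hcon
    set q : ℕ := (n - p) / m with hq
    have e1 : y ≤ p := by
      by_contra h
      push Not at h
      apply c1
      rw [Finset.mem_range, Nat.lt_succ_iff]
      exact Nat.le_floor h.le
    have e2 : y ≤ q := by
      by_contra h
      push Not at h
      apply c2
      rw [Finset.mem_image]
      refine ⟨n - p, ?_, by omega⟩
      rw [Finset.mem_Ioc]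
      refine ⟨by omega, Nat.le_floor ?_⟩
      have e3 : n - p < (q + 1) * m := by
        rw [hq]
        have := Nat.lt_div_mul_add (a := n - p) (b := m) (by omega)
        rw [add_mul, one_mul]
        exact this
      have e4 : ((n - p : ℕ) : ℝ) < ((q : ℝ) + 1) * m := by exact_mod_cast e3
      have e5 : ((q : ℝ) + 1) * m ≤ (y + 1) * m := mul_le_mul_of_nonneg_right (by linarith) (Nat.cast_nonneg _)
      linarith
    have hqn : q ≤ n := (Nat.div_le_self _ _).trans (Nat.sub_le _ _)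
    have n1 := g1 p e1 (by rw [one_mul]; exact_mod_cast p2.le)
    have n2 := g1 q e2 (by rw [one_mul]; exact_mod_cast hqn)
    have hdd : d * Real.log n ≤ δ / 4 * Real.log n := mul_le_mul_of_nonneg_right hdδ hL.le
    have hpos : 0 < δ * Real.log n := by positivity
    have n3 : |Real.log ((q ^ 2 - 2 : ℕ) : ℝ) - 2 * Real.log n| ≤ δ * Real.log n := by
      have hq2 : (2 : ℝ) ≤ q := by exact_mod_cast p3
      have hqq : 2 ≤ q ^ 2 := by nlinarith
      have hc : ((q ^ 2 - 2 : ℕ) : ℝ) = (q : ℝ) ^ 2 - 2 := by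
        rw [Nat.cast_sub hqq]
        push_cast
        rfl
      rw [hc]
      have l1 : Real.log ((q : ℝ) ^ 2 - 2) ≤ 2 * Real.log q := by
        have : Real.log ((q : ℝ) ^ 2) = 2 * Real.log q := by
          rw [Real.log_pow]
          norm_num
        rw [← this]
        exact Real.log_le_log (by nlinarith) (by linarith)
      have l2 : 2 * Real.log q - Real.log 2 ≤ Real.log ((q : ℝ) ^ 2 - 2) := by
        have : Real.log ((q : ℝ) ^ 2 / 2) = 2 * Real.log q - Real.log 2 := by
          rw [Real.log_div (by positivity) (by norm_num), Real.log_pow]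
          norm_num
        rw [← this]
        exact Real.log_le_log (by positivity) (by nlinarith)
      have a2 := abs_le.1 n2
      have l3 : 0 < Real.log 2 := Real.log_pos (by norm_num)
      rw [abs_le]
      constructor <;> linarith [a2.1, a2.2]
    fin_cases i
    · have : |Real.log (p : ℝ) - 1 * Real.log n| ≤ δ * Real.log n := by
        rw [one_mul]
        linarith
      exact absurd this (not_le.2 hi)
    · have : |Real.log (q : ℝ) - 1 * Real.log n| ≤ δ * Real.log n := by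
        rw [one_mul]
        linarith
      exact absurd this (not_le.2 hi)
    · exact absurd n3 (not_le.2 hi)
  have h3 := (Finset.card_le_card hsub).trans (Finset.card_union_le _ _)
  have h4 : ((Finset.Ioc 0 (⌊(m : ℝ) * (y + 1)⌋₊)).image (fun j => n - j)).card ≤ ⌊(m : ℝ) * (y + 1)⌋₊ := by
    refine Finset.card_image_le.trans ?_
    simp
  rw [Finset.card_range] at h3
  have h5 : ((farv (fam m n) (tau m n) kap (Real.log n) δ).card : ℝ) ≤
      ((⌊y⌋₊ : ℝ) + 1) + (⌊(m : ℝ) * (y + 1)⌋₊ : ℝ) := by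
    exact_mod_cast h3.trans (Nat.add_le_add_left h4 _)
  have h6 : (⌊y⌋₊ : ℝ) ≤ y := Nat.floor_le (by linarith)
  have h7 : (⌊(m : ℝ) * (y + 1)⌋₊ : ℝ) ≤ m * (y + 1) := Nat.floor_le (by positivity)
  have hm' : (1 : ℝ) ≤ m := by exact_mod_cast hm
  have h8 : ((farv (fam m n) (tau m n) kap (Real.log n) δ).card : ℝ) ≤ (2 * m + 3) * y := by
    nlinarith
  refine h8.trans ?_
  have h9 : (n : ℝ) ^ (1 - d / 2 : ℝ) = (n : ℝ) ^ (d / 2 : ℝ) * y := by
    rw [hy, ← Real.rpow_add hn0]
    congr 1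
    ring
  rw [h9]
  exact mul_le_mul_of_nonneg_right g2 (by linarith)

/-! ### multiplicities -/

lemma mult_one (m n t : ℕ) (hm : 1 ≤ m) : ((Finset.Ioo 1 n).filter (fun p => (n - p) / m = t)).card ≤ m := by
  calc ((Finset.Ioo 1 n).filter (fun p => (n - p) / m = t)).card
      ≤ (Finset.Ioc (n - (t * m + m)) (n - t * m)).card := by
        apply Finset.card_le_card
        intro p hp
        rw [Finset.mem_filter, Finset.mem_Ioo] at hp
        obtain ⟨⟨p1, p2⟩, p3⟩ := hp
        have h1 := Nat.lt_div_mul_add (a := n - p) (b := m) (by omega)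
        have h2 := Nat.div_mul_le_self (n - p) m
        rw [p3] at h1 h2
        rw [Finset.mem_Ioc]
        omega
    _ ≤ m := by
        rw [Nat.card_Ioc]
        omega

lemma mult (m n t : ℕ) (hm : 1 ≤ m) :
    ((fam m n).filter (fun p => t ∈ vs (tau m n) p)).card ≤ 2 * m + 1 := by
  classical
  have hsub : (fam m n).filter (fun p => t ∈ vs (tau m n) p) ⊆
      ({t} ∪ (Finset.Ioo 1 n).filter (fun p => (n - p) / m = t)) ∪
        (Finset.Ioo 1 n).filter (fun p => (n - p) / m = Nat.sqrt (t + 2)) := by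
    intro p hp
    rw [Finset.mem_filter, mem_vs] at hp
    obtain ⟨hp1, hp2⟩ := hp
    unfold fam at hp1
    rw [Finset.mem_filter] at hp1
    rw [Finset.mem_union, Finset.mem_union, Finset.mem_singleton, Finset.mem_filter, Finset.mem_filter]
    rcases hp2 with h | h | h
    · exact Or.inl (Or.inl h.symm)
    · exact Or.inl (Or.inr ⟨hp1.1, h.symm⟩)
    · refine Or.inr ⟨hp1.1, ?_⟩
      have h2 : 2 ≤ ((n - p) / m) ^ 2 := by
        have := hp1.2.1
        nlinarith
      have h3 : t + 2 = ((n - p) / m) ^ 2 := by omega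
      rw [h3, Nat.sqrt_eq']
  refine (Finset.card_le_card hsub).trans ((Finset.card_union_le _ _).trans ?_)
  have h1 := Finset.card_union_le {t} ((Finset.Ioo 1 n).filter (fun p => (n - p) / m = t))
  have h2 := mult_one m n t hm
  have h3 := mult_one m n (Nat.sqrt (t + 2)) hm
  rw [Finset.card_singleton] at h1
  omega

end Pool.Agent.Results.MP_4011c3_nt.SievedModels

open Pool.Agent.Results.MP_4011c3_nt.SievedModels Pool.Agent.N909.TF

/-- Let `A n` be the event that `n` belongs to a random set adapted to a filtration `ℱ`, let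
`Q ≥ 1`, let no integer which is not coprime to `Q` be chosen, and let the conditional probability of
`A (n + 1)` given `ℱ n`, times `log n`, tend to `Q / φ(Q)` along the `n` with `n + 1` coprime to `Q`,
almost surely.  Let `R_m(n)` be the number of `p < n` for which `p`, `q = ⌊(n - p) / m⌋` and
`q ^ 2 - 2` are at least `2`, different and chosen, and `N_m(n)` the number of those `p` for which they
are at least `2`, different and coprime to `Q`.  (1) For every `m ≥ 1`, `N_m(n) ≥ n / (8 m Q)` for all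
large `n` for which `(m, n)` is admissible.  (2) Almost surely, for every `m ≥ 1`, `R_m(n)` is
asymptotic to `N_m(n) (Q / φ(Q)) ^ 3 / (2 log ^ 3 n)` as `n → ∞` with `(m, n)` admissible.
(3) Almost surely, for every `m ≥ 1`, `R_m(n) ≥ n / (32 m Q log ^ 3 n)` for all large `n` with `(m, n)`
admissible; in particular there is such a `p`. -/
theorem Pool.Agent.Results.MP_4011c3_nt.SievedModels.result
    {Ω : Type} [mΩ : MeasurableSpace Ω] (μ : Measure Ω) [IsProbabilityMeasure μ]
    (ℱ : Filtration ℕ mΩ) (A : ℕ → Set Ω) (hA : ∀ n, MeasurableSet[ℱ n] (A n))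
    (Q : ℕ) (hQ : 0 < Q) (hcop : ∀ n, ¬ Nat.Coprime n Q → A n = ∅)
    (hd : ∀ᵐ ω ∂μ, Tendsto (fun n : ℕ =>
      (μ[(A (n + 1)).indicator (fun _ => (1 : ℝ)) | ℱ n]) ω * Real.log n)
      (atTop ⊓ 𝓟 {n : ℕ | Nat.Coprime (n + 1) Q}) (𝓝 ((Q : ℝ) / Nat.totient Q))) :
    (∀ m : ℕ, 1 ≤ m → ∀ᶠ n : ℕ in atTop, adm m n →
      (n : ℝ) / (8 * m * Q) ≤ (reps {k : ℕ | Nat.Coprime k Q} m n).ncard) ∧
    (∀ᵐ ω ∂μ, ∀ m : ℕ, 1 ≤ m → ∀ ε : ℝ, 0 < ε → ∀ᶠ n : ℕ in atTop, adm m n →
      |((reps {k : ℕ | ω ∈ A k} m n).ncard : ℝ) -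
        (reps {k : ℕ | Nat.Coprime k Q} m n).ncard * (((Q : ℝ) / Nat.totient Q) ^ 3 / (2 * Real.log n ^ 3))| ≤
      ε * ((reps {k : ℕ | Nat.Coprime k Q} m n).ncard *
        (((Q : ℝ) / Nat.totient Q) ^ 3 / (2 * Real.log n ^ 3)))) ∧
    (∀ᵐ ω ∂μ, ∀ m : ℕ, 1 ≤ m → ∀ᶠ n : ℕ in atTop, adm m n →
      (n : ℝ) / (32 * m * Q * Real.log n ^ 3) ≤ (reps {k : ℕ | ω ∈ A k} m n).ncard ∧
      ∃ p q : ℕ, 2 ≤ p ∧ p < n ∧ q = (n - p) / m ∧ 2 ≤ q ∧ ω ∈ A p ∧ ω ∈ A q ∧ ω ∈ A (q ^ 2 - 2)) := by
  classical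
  have h1 : ∀ m : ℕ, 1 ≤ m → ∀ᶠ n : ℕ in atTop, adm m n →
      (n : ℝ) / (8 * m * Q) ≤ (reps {k : ℕ | Nat.Coprime k Q} m n).ncard := by
    intro m hm
    have h := many Q m hQ hm
    rw [eventually_inf_principal] at h
    filter_upwards [h] with n g hadm
    have g' := g hadm
    rw [reps_cop]
    rw [Real.rpow_one, one_div, inv_mul_eq_div] at g'
    exact g'
  have h2 : ∀ᵐ ω ∂μ, ∀ m : ℕ, 1 ≤ m → ∀ ε : ℝ, 0 < ε → ∀ᶠ n : ℕ in atTop, adm m n →
      |((reps {k : ℕ | ω ∈ A k} m n).ncard : ℝ) -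
        (reps {k : ℕ | Nat.Coprime k Q} m n).ncard * (((Q : ℝ) / Nat.totient Q) ^ 3 / (2 * Real.log n ^ 3))| ≤
      ε * ((reps {k : ℕ | Nat.Coprime k Q} m n).ncard *
        (((Q : ℝ) / Nat.totient Q) ^ 3 / (2 * Real.log n ^ 3))) := by
    rw [ae_all_iff]
    intro m
    by_cases hm : 1 ≤ m
    swap
    · exact Filter.Eventually.of_forall fun ω h => absurd h hm
    have hm' : (1 : ℝ) ≤ m := by exact_mod_cast hm
    have hQ' : (1 : ℝ) ≤ Q := by exact_mod_cast hQ
    have h3 := lawv (μ := μ) hA Q hQ hcop hd (fam m) (tau m) (fun _ => 2 * m + 1)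
      (fun n p hp => by
        unfold fam at hp
        rw [Finset.mem_filter] at hp
        obtain ⟨-, -, a1, a2, a3⟩ := hp
        intro i j hij
        unfold tau at hij
        fin_cases i <;> fin_cases j
        · rfl
        · exact absurd hij a1
        · exact absurd hij a2
        · exact absurd hij.symm a1
        · rfl
        · exact absurd hij a3
        · exact absurd hij.symm a2
        · exact absurd hij.symm a3
        · rfl)
      (fun n p hp i => by
        unfold fam at hp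
        rw [Finset.mem_filter, Finset.mem_Ioo] at hp
        obtain ⟨⟨b1, -⟩, b2, -⟩ := hp
        have b3 : 4 ≤ ((n - p) / m) ^ 2 := by nlinarith
        unfold tau
        fin_cases i
        · show 0 < p
          omega
        · show 0 < (n - p) / m
          omega
        · show 0 < ((n - p) / m) ^ 2 - 2
          omega)
      (fun n t => mult m n t hm) (fun _ => by omega) (atTop ⊓ 𝓟 {n : ℕ | adm m n}) inf_le_left kap
      (fun i => by
        unfold kap
        fin_cases i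
        · show (0 : ℝ) < 1
          norm_num
        · show (0 : ℝ) < 1
          norm_num
        · show (0 : ℝ) < 2
          norm_num)
      1 (1 / (8 * m * Q)) (by positivity) (many Q m hQ hm)
      ⟨1 / 2, by norm_num, by
        have g : ∀ᶠ n : ℕ in atTop, ((2 * m + 1 : ℕ) : ℝ) ≤ (n : ℝ) ^ (1 - 1 / 2 : ℝ) :=
          ((tendsto_rpow_atTop (by norm_num : (0:ℝ) < 1 - 1 / 2)).comp
            tendsto_natCast_atTop_atTop).eventually_ge_atTop _
        exact g.filter_mono inf_le_left⟩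
      (fun δ hδ => by
        obtain ⟨η, hη, h⟩ := few m hm δ hδ
        exact ⟨η, hη, h.filter_mono inf_le_left⟩)
    filter_upwards [h3] with ω hω _ ε hε
    have h4 := hω ε hε
    rw [eventually_inf_principal] at h4
    filter_upwards [h4, eventually_gt_atTop 1] with n g g3 hadm
    have g' := g hadm
    have hn : (1 : ℝ) < n := by exact_mod_cast g3
    have hL : 0 < Real.log n := Real.log_pos hn
    have hprod : ∏ i, (((Q : ℝ) / Nat.totient Q) / (kap i * Real.log n)) =
        ((Q : ℝ) / Nat.totient Q) ^ 3 / (2 * Real.log n ^ 3) := by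
      rw [Fin.prod_univ_three]
      have k0 : kap 0 = 1 := rfl
      have k1 : kap 1 = 1 := rfl
      have k2 : kap 2 = 2 := rfl
      rw [k0, k1, k2]
      generalize (Q : ℝ) / Nat.totient Q = c
      field_simp
    rw [hprod] at g'
    rw [reps_cop, reps_cho]
    exact g'
  refine ⟨h1, h2, ?_⟩
  filter_upwards [h2] with ω hω m hm
  filter_upwards [hω m hm (1 / 2) (by norm_num), h1 m hm, eventually_gt_atTop 1] with n g1 g2 g3 hadm
  have g1 := g1 hadm
  have g2 := g2 hadm
  have hn : (1 : ℝ) < n := by exact_mod_cast g3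
  have hL : 0 < Real.log n := Real.log_pos hn
  have hc := cQ_ge Q hQ
  have hQ0 : (0 : ℝ) < Q := by exact_mod_cast hQ
  have hm0 : (0 : ℝ) < m := by exact_mod_cast hm
  have k1 := (abs_le.1 g1).1
  set N : ℝ := ((reps {k : ℕ | Nat.Coprime k Q} m n).ncard : ℝ)
  set c : ℝ := (Q : ℝ) / Nat.totient Q
  have hc3 : 1 ≤ c ^ 3 := one_le_pow₀ hc
  have k2 : (n : ℝ) / (8 * m * Q) * (1 / (2 * Real.log n ^ 3)) ≤ N * (c ^ 3 / (2 * Real.log n ^ 3)) := by
    apply mul_le_mul g2 _ (by positivity) (Nat.cast_nonneg _)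
    gcongr
  have k3 : (n : ℝ) / (32 * m * Q * Real.log n ^ 3) =
      1 / 2 * ((n : ℝ) / (8 * m * Q) * (1 / (2 * Real.log n ^ 3))) := by
    field_simp
    norm_num
  have k4 : (n : ℝ) / (32 * m * Q * Real.log n ^ 3) ≤ (reps {k : ℕ | ω ∈ A k} m n).ncard := by
    rw [k3]
    linarith
  refine ⟨k4, ?_⟩
  have hpos : 0 < (reps {k : ℕ | ω ∈ A k} m n).ncard := by
    have : (0 : ℝ) < (reps {k : ℕ | ω ∈ A k} m n).ncard := lt_of_lt_of_le (by positivity) k4
    exact_mod_cast this
  obtain ⟨p, p1, p2, p3, -, -, -, p4, p5, p6⟩ := Set.nonempty_of_ncard_ne_zero hpos.ne'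
  exact ⟨p, (n - p) / m, p1, p2, rfl, p3, p4, p5, p6⟩
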