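import Pool.Agent.N469.LP.Multi

/-!
# Primes `p < n` for which `⌊(n - p) / m⌋` is prime, for all `n` near almost all smooth numbers

Definition used: `Pool.Agent.H560R3.GB.sing k = 2 C₂ ∏_{p ∣ k, p > 2} (p - 1) / (p - 2)`, the singular series,
`C₂ = ∏_{p > 2} (1 - 1 / (p - 1) ^ 2)` (the infimum of the partial products).

The proof combines an elementary bound for the exponential sum over the integers composed of primes from a given set
(`Pool.Agent.N469.SQ.exp_alt`: it is large only near few rational numbers with small denominators), the replacement of the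
von Mangoldt function at the values of a linear form by its sieve model in the second moment (`Pool.Agent.N469.LP.sm_repZ`,
based on the starting files `Pool.Agent.Y885`), and a fundamental lemma for the primes of a progression whose images
under a linear form have no small prime factors (`Pool.Agent.N469.LP.HH_main`). The lemmas `cop` and `loc` are copied from the
starting file `AlmostAllAlmostPrime` of this problem.
-/

set_option autoImplicit false

namespace Pool.Agent.Results.MP_4011c3_nt.SmoothNumbers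

open Finset Pool.Agent.H560R3.GB

/-- The pair `(m, n)` is admissible (the definition of the problem). -/
def Admissible (m n : ℕ) : Prop :=
  2 * m + 1 < n ∧ ((m = 1 ∧ Even n) ∨ (m = 3 ∧ ¬ n ≡ 1 [MOD 6]) ∨ m = 2 ∨ 4 ≤ m)

/-- The number of the primes `p < n` for which `⌊(n - p) / m⌋` is prime. -/
def reps (m n : ℕ) : ℕ := ((range n).filter fun p => p.Prime ∧ ((n - p) / m).Prime).card

open Classical in
/-- The offsets `j < m` for which there is no local obstruction to `n - j = p + m q`. -/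
noncomputable def offsets (m n : ℕ) : Finset ℕ := (range m).filter fun j => Nat.Coprime (n - j) m ∧ Odd (n - j + m)

/-- The expected number of the `p`: for every offset `j` there are about `𝔖(m (n - j)) (n / m) / log² N` pairs of primes
`p`, `q` with `p + m q = n - j`. -/
noncomputable def main (N m n : ℕ) : ℝ := ∑ j ∈ offsets m n, sing (m * (n - j)) * ((n : ℝ) / m / Real.log N ^ 2)

/-- For all `m ≤ M`: the number of the primes `p < n` for which `⌊(n - p) / m⌋` is prime is asymptotically the expected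
number, up to at most `2 m` degenerate representations, and there is such a prime `p` if the pair `(m, n)` is admissible. -/
def Holds (ε : ℝ) (M N n : ℕ) : Prop :=
  ∀ m : ℕ, 1 ≤ m → m ≤ M → |(reps m n : ℝ) - main N m n| ≤ ε * main N m n + 2 * m ∧
    (Admissible m n → ∃ p : ℕ, p < n ∧ p.Prime ∧ ((n - p) / m).Prime)

/-- The integers `1 ≤ v ≤ N` all of whose prime factors belong to `P`. -/
def composedOf (P : Finset ℕ) (N : ℕ) : Finset ℕ := (Icc 1 N).filter fun v => v.primeFactors ⊆ P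

/-- The `y`-smooth integers `1 ≤ v ≤ N`: the integers all of whose prime factors are at most `y`. -/
def smooth (y N : ℕ) : Finset ℕ := (Icc 1 N).filter fun v => ∀ p ∈ v.primeFactors, p ≤ y

lemma cop (N m k c : ℕ) (h : N + c = m * k ∨ N = m * k + c) (hc : Nat.Coprime c m) : Nat.Coprime N m := by
  by_contra hne
  obtain ⟨p, hp, hpN, hpm⟩ := Nat.Prime.not_coprime_iff_dvd.1 hne
  have h1 : p ∣ m * k := Dvd.dvd.mul_right hpm k
  have h2 : p ∣ c := by
    rcases h with h | h
    · rw [← h] at h1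
      exact (Nat.dvd_add_right hpN).1 h1
    · rw [h] at hpN
      exact (Nat.dvd_add_right h1).1 hpN
  exact (Nat.Prime.not_coprime_iff_dvd.2 ⟨p, hp, h2, hpm⟩) hc

lemma loc (m n : ℕ) (hm : 1 ≤ m) (h : Admissible m n) : ∃ r, r < m ∧ (n - r).Coprime m ∧ Odd (n - r + m) := by
  obtain ⟨hn, hcase⟩ := h
  have hdm := Nat.div_add_mod (n - 1) m
  have hlt := Nat.mod_lt (n - 1) (show 0 < m by omega)
  generalize hk : (n - 1) / m = k at *
  generalize ha : (n - 1) % m = a at *
  rcases Nat.even_or_odd m with hme | hmo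
  · refine ⟨a, hlt, ?_, ?_⟩
    · exact cop (n - a) m k 1 (Or.inr (by omega)) (Nat.coprime_one_left m)
    · have h1 : n - a = m * k + 1 := by omega
      rw [h1]
      have h2 : Even (m * k) := hme.mul_right k
      obtain ⟨t, ht⟩ := h2
      obtain ⟨s, hs⟩ := hme
      exact ⟨t + s, by omega⟩
  · have h2m : Nat.Coprime 2 m := Nat.coprime_two_left.2 hmo
    obtain ⟨s, hs⟩ := hmo
    rcases Nat.eq_zero_or_pos a with ha0 | ha0
    · rcases Nat.even_or_odd n with hne | hno
      · obtain ⟨t, ht⟩ := hne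
        refine ⟨0, by omega, ?_, ⟨t + s, by omega⟩⟩
        rw [Nat.sub_zero]
        exact cop n m k 1 (Or.inr (by omega)) (Nat.coprime_one_left m)
      · obtain ⟨t, ht⟩ := hno
        have hm5 : 5 ≤ m := by
          rcases hcase with ⟨_, ⟨u, hu⟩⟩ | ⟨h3, h6⟩ | h2 | h4
          · omega
          · exfalso
            apply h6
            unfold Nat.ModEq
            subst h3
            omega
          · omega
          · omega
        refine ⟨3, by omega, ?_, ⟨t + s - 1, by omega⟩⟩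
        exact cop (n - 3) m k 2 (Or.inl (by omega)) h2m
    · rcases Nat.even_or_odd (n - a) with hne | hno
      · obtain ⟨t, ht⟩ := hne
        refine ⟨a, hlt, ?_, ⟨t + s, by omega⟩⟩
        exact cop (n - a) m k 1 (Or.inr (by omega)) (Nat.coprime_one_left m)
      · obtain ⟨t, ht⟩ := hno
        refine ⟨a - 1, by omega, ?_, ⟨t + s + 1, by omega⟩⟩
        exact cop (n - (a - 1)) m k 2 (Or.inr (by omega)) h2m


/-- the number of the `q` for a given offset -/
def repsj (m n j : ℕ) : ℕ := ((range n).filter fun p => p.Prime ∧ ((n - p) / m).Prime ∧ (n - p) % m = j).card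

theorem reps_eq (m n : ℕ) (hm : 1 ≤ m) : reps m n = ∑ j ∈ range m, repsj m n j := by
  unfold reps repsj
  rw [card_eq_sum_card_fiberwise (f := fun p => (n - p) % m) (t := range m) (fun p _ => by
    rw [mem_coe, mem_range]
    exact Nat.mod_lt _ (by omega))]
  apply sum_congr rfl
  intro j _
  rw [filter_filter]
  congr 1
  ext p
  simp only [mem_filter]
  tauto

theorem bad_le (m n j : ℕ) (hm : 1 ≤ m) (hj : j < m) (hjn : j < n) (hbad : ¬ (Nat.Coprime (n - j) m ∧ Odd (n - j + m))) : repsj m n j ≤ 2 := by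
  classical
  have hrep : ∀ p, p < n → (n - p) % m = j → n - j = p + m * ((n - p) / m) := by
    intro p hp h1
    have := Nat.mod_add_div (n - p) m
    rw [h1] at this
    omega
  by_cases hc : Nat.Coprime (n - j) m
  · -- parity
    have hodd : ¬ Odd (n - j + m) := fun h => hbad ⟨hc, h⟩
    have hev : Even (n - j + m) := Nat.not_odd_iff_even.1 hodd
    have hmo : Odd m := by
      rw [← Nat.not_even_iff_odd]
      intro hme
      have h2 : Even (n - j) := by
        rw [Nat.even_add] at hev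
        exact hev.2 hme
      have h3 : 2 ∣ Nat.gcd (n - j) m := Nat.dvd_gcd h2.two_dvd hme.two_dvd
      rw [hc] at h3
      omega
    have hno : Odd (n - j) := by
      rw [← Nat.not_even_iff_odd]
      intro h
      rw [Nat.even_add] at hev
      exact (Nat.not_even_iff_odd.2 hmo) (hev.1 h)
    have hsub : (range n).filter (fun p => p.Prime ∧ ((n - p) / m).Prime ∧ (n - p) % m = j) ⊆ {2, n - j - 2 * m} := by
      intro p hp
      rw [mem_filter, mem_range] at hp
      obtain ⟨h1, h2, h3, h4⟩ := hp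
      have h5 := hrep p h1 h4
      rw [mem_insert, mem_singleton]
      rcases h2.eq_two_or_odd' with h6 | h6
      · exact Or.inl h6
      · right
        rcases h3.eq_two_or_odd' with h7 | h7
        · rw [h7] at h5
          omega
        · exfalso
          have h8 : Even (p + m * ((n - p) / m)) := h6.add_odd (hmo.mul h7)
          rw [← h5] at h8
          exact (Nat.not_even_iff_odd.2 hno) h8
    unfold repsj
    exact (card_le_card hsub).trans card_le_two
  · obtain ⟨g, hg, hgn, hgm⟩ := Nat.Prime.not_coprime_iff_dvd.1 hc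
    have hsub : (range n).filter (fun p => p.Prime ∧ ((n - p) / m).Prime ∧ (n - p) % m = j) ⊆ {g} := by
      intro p hp
      rw [mem_filter, mem_range] at hp
      obtain ⟨h1, h2, h3, h4⟩ := hp
      have h5 := hrep p h1 h4
      rw [mem_singleton]
      have h6 : g ∣ p := by
        rw [h5] at hgn
        exact (Nat.dvd_add_left (Dvd.dvd.mul_right hgm _)).1 hgn
      exact ((Nat.prime_dvd_prime_iff_eq hg h2).1 h6).symm
    unfold repsj
    exact (card_le_card hsub).trans (by rw [card_singleton]; norm_num)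

open Pool.Agent.N469.LP in
theorem repsj_cpw (m n j : ℕ) (hm : 1 ≤ m) (hj : j < m) (hjn : j < n) :
    repsj m n j = cpw (-(m : ℤ)) ((n - j : ℕ) : ℤ) 1 0 0 ((n - j - 1) / m) := by
  unfold repsj cpw
  apply card_bij (fun (p : ℕ) _ => (n - p) / m)
  · intro p hp
    rw [mem_filter, mem_range] at hp
    obtain ⟨h1, h2, h3, h4⟩ := hp
    have h5 := Nat.mod_add_div (n - p) m
    rw [h4] at h5
    obtain ⟨t, ht⟩ : ∃ t, t = (n - p) / m := ⟨_, rfl⟩
    rw [← ht] at h3 h5 ⊢
    rw [mem_filter, mem_Ioc]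
    have h6 := h2.one_lt
    have h7 : m * t + p = n - j := by omega
    refine ⟨⟨h3.pos, ?_⟩, h3, Nat.modEq_one, ?_⟩
    · rw [Nat.le_div_iff_mul_le (by omega), mul_comm]
      omega
    · have e : (-(m : ℤ) * (t : ℤ) + ((n - j : ℕ) : ℤ)).toNat = p := by
        rw [← h7]
        push_cast
        have : -(m : ℤ) * t + (m * t + p) = p := by ring
        rw [this, Int.toNat_natCast]
      rw [e]
      exact h2
  · intro p hp p' hp' he
    rw [mem_filter, mem_range] at hp hp'
    obtain ⟨h1, h2, h3, h4⟩ := hp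
    obtain ⟨h1', h2', h3', h4'⟩ := hp'
    have h5 := Nat.mod_add_div (n - p) m
    have h5' := Nat.mod_add_div (n - p') m
    rw [h4] at h5
    rw [h4'] at h5'
    rw [he] at h5
    omega
  · intro t ht
    rw [mem_filter, mem_Ioc] at ht
    obtain ⟨⟨h1, h2⟩, h3, _, h4⟩ := ht
    rw [Nat.le_div_iff_mul_le (by omega), mul_comm] at h2
    have e : (-(m : ℤ) * (t : ℤ) + ((n - j : ℕ) : ℤ)).toNat = n - j - m * t := by
      have h6 : ((n - j : ℕ) : ℤ) = ((n - j - m * t : ℕ) : ℤ) + m * t := by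
        have : n - j = (n - j - m * t) + m * t := by omega
        conv_lhs => rw [this]
        push_cast
        ring
      rw [h6]
      have : -(m : ℤ) * t + (((n - j - m * t : ℕ) : ℤ) + m * t) = ((n - j - m * t : ℕ) : ℤ) := by ring
      rw [this, Int.toNat_natCast]
    rw [e] at h4
    have h7 := h4.one_lt
    have h9 : 0 < m * t := Nat.mul_pos hm h3.pos
    have h8 : n - (n - j - m * t) = j + m * t := by omega
    refine ⟨n - j - m * t, ?_, ?_⟩
    · rw [mem_filter, mem_range, h8, Nat.add_mul_div_left _ _ (by omega), Nat.div_eq_of_lt hj, zero_add, Nat.add_mul_mod_self_left,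
        Nat.mod_eq_of_lt hj]
      exact ⟨by omega, h4, h3, rfl⟩
    · rw [h8, Nat.add_mul_div_left _ _ (by omega), Nat.div_eq_of_lt hj, zero_add]


open Pool.Agent.N469.LP in
theorem one_offset (ε : ℝ) (hε : 0 < ε) (B M W : ℕ) : ∃ N₀ : ℕ, ∀ N, N₀ ≤ N → ∀ n : ℕ, (N : ℝ) / Real.log N ^ W ≤ n → n ≤ B * N →
    ∀ m j : ℕ, 1 ≤ m → m ≤ M → j < m → j < n ∧ (GoodL (ε / 3) B 0 (W + 1) (-(m : ℤ)) N ((n - j : ℕ) : ℤ) →
      |(repsj m n j : ℝ) - sing (m * (n - j)) * ((n : ℝ) / m / Real.log N ^ 2)| ≤ ε * (sing (m * (n - j)) * ((n : ℝ) / m / Real.log N ^ 2)) ∧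
      0 < sing (m * (n - j)) * ((n : ℝ) / m / Real.log N ^ 2)) := by
  obtain ⟨n1, h1⟩ := Pool.Agent.H373R2.T7.ev_L' (6 / ε + 2 * M + 4)
  obtain ⟨n2, h2⟩ := Pool.Agent.H373R2.T7.ev_log' (W + 4) 1
  refine ⟨n1 + n2 + 4, fun N hN n hn1 hn2 m j hm hmM hj => ?_⟩
  have hL := h1 N (by omega)
  have hs := h2 N (by omega)
  rw [one_mul] at hs
  have hN0 : (0 : ℝ) < N := by exact_mod_cast (by omega : 0 < N)
  obtain ⟨L, hLd⟩ : ∃ L, L = Real.log (N : ℝ) := ⟨_, rfl⟩
  unfold GoodL
  rw [← hLd] at hL hs hn1 ⊢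
  have p1 : 0 < 6 / ε := by positivity
  have hMr : (1 : ℝ) ≤ M := by exact_mod_cast hm.trans hmM
  have hmr : (1 : ℝ) ≤ m := by exact_mod_cast hm
  have hmMr : (m : ℝ) ≤ M := by exact_mod_cast hmM
  have hL4 : 4 ≤ L := by linarith
  have hL1 : 1 ≤ L := by linarith
  have hL0 : 0 < L := by linarith
  have hss : √(N : ℝ) * √(N : ℝ) = N := Real.mul_self_sqrt hN0.le
  have hbig : L ^ 3 ≤ N / L ^ (W + 1) := by
    rw [le_div_iff₀ (by positivity)]
    have hs1 : 1 ≤ √(N : ℝ) := (one_le_pow₀ hL1).trans hs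
    calc L ^ 3 * L ^ (W + 1) = L ^ (W + 4) := by rw [← pow_add]; congr 1; ring
      _ ≤ √N := hs
      _ ≤ √N * √N := by nlinarith
      _ = N := hss
  have hNW : (N : ℝ) / L ^ W = L * (N / L ^ (W + 1)) := by rw [pow_succ]; field_simp
  have hL3 : L ≤ L ^ 3 := le_self_pow₀ hL1 (by norm_num)
  -- `n / m` is large
  have hnm : 2 * (N / L ^ (W + 1)) ≤ (n : ℝ) / m := by
    rw [le_div_iff₀ (by linarith)]
    calc 2 * ((N : ℝ) / L ^ (W + 1)) * m ≤ 2 * (N / L ^ (W + 1)) * M := mul_le_mul_of_nonneg_left hmMr (by positivity)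
      _ = (2 * M) * (N / L ^ (W + 1)) := by ring
      _ ≤ L * (N / L ^ (W + 1)) := by
          apply mul_le_mul_of_nonneg_right _ (by positivity)
          linarith
      _ = N / L ^ W := hNW.symm
      _ ≤ n := hn1
  have hnm2 : 2 * L ≤ (n : ℝ) / m := by linarith
  have hnL : L ≤ n := by
    have : (n : ℝ) / m ≤ n := div_le_self (Nat.cast_nonneg _) hmr
    linarith
  have hjn : j < n := by
    have h3 : (j : ℝ) < n := by
      have : (j : ℝ) < m := by exact_mod_cast hj
      linarith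
    exact_mod_cast h3
  refine ⟨hjn, fun hgood => ?_⟩
  obtain ⟨M', hM'⟩ : ∃ M', M' = (n - j - 1) / m := ⟨_, rfl⟩
  have d1 : M' * m ≤ n - j - 1 := by rw [hM']; exact Nat.div_mul_le_self _ _
  have d2 : n - j - 1 < (M' + 1) * m := by
    rw [hM']
    have := Nat.lt_div_mul_add (a := n - j - 1) (b := m) (by omega)
    linarith
  have c1 : ((n - j - 1 : ℕ) : ℝ) = n - j - 1 := by
    rw [Nat.cast_sub (by omega), Nat.cast_sub (by omega)]
    push_cast
    ring
  have e1 : (M' : ℝ) * m ≤ n - j - 1 := by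
    rw [← c1]
    exact_mod_cast d1
  have e2 : (n : ℝ) - j - 1 < (M' + 1) * m := by
    rw [← c1]
    exact_mod_cast d2
  have hj0 : (0 : ℝ) ≤ j := Nat.cast_nonneg _
  have hjm : (j : ℝ) + 1 ≤ m := by exact_mod_cast hj
  have f1 : (M' : ℝ) ≤ (n : ℝ) / m := by
    rw [le_div_iff₀ (by linarith)]
    linarith
  have f2 : (n : ℝ) / m - 2 ≤ M' := by
    rw [sub_le_iff_le_add, div_le_iff₀ (by linarith)]
    nlinarith
  have hM'B : M' ≤ B * N := by
    have : M' ≤ M' * m := Nat.le_mul_of_pos_right _ (by omega)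
    omega
  have hkey := hgood 1 0 0 M' le_rfl (by simp) (Nat.coprime_one_right _) (by simp) hM'B (by
    rw [Nat.cast_zero, zero_add]
    have : 2 ≤ N / L ^ (W + 1) := by
      have : (4 : ℝ) ≤ L ^ 3 := hL4.trans hL3
      linarith
    linarith) (by
    intro t ht
    rw [mem_Ioc] at ht
    have h3 : t * m ≤ n - j - 1 := (Nat.mul_le_mul_right _ ht.2).trans d1
    have h4 : ((t * m : ℕ) : ℤ) < ((n - j : ℕ) : ℤ) := by
      have : t * m < n - j := by omega
      exact_mod_cast this
    push_cast at h4 ⊢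
    linarith [mul_comm (t : ℤ) (m : ℤ)])
  rw [hM', ← repsj_cpw m n j hm hj hjn, ← hM'] at hkey
  have hd : Pool.Agent.N469.LP.dens (-(m : ℤ)) ((n - j : ℕ) : ℤ) 1 = sing (m * (n - j)) := by
    unfold Pool.Agent.N469.LP.dens
    have : (-(m : ℤ) * ((n - j : ℕ) : ℤ)).natAbs = m * (n - j) := by
      rw [Int.natAbs_mul, Int.natAbs_neg, Int.natAbs_natCast, Int.natAbs_natCast]
    rw [this]
    unfold Pool.Agent.W93.PP.Cnt
    have e : (range 1).filter (fun x : ℕ => Nat.Coprime x 1 ∧ Nat.Coprime (x + m * (n - j)) 1) = range 1 := by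
      apply filter_true_of_mem
      intro x _
      exact ⟨Nat.coprime_one_right x, Nat.coprime_one_right _⟩
    rw [e, card_range, Nat.cast_one, div_one]
  rw [hd, Nat.cast_zero, sub_zero] at hkey
  obtain ⟨S, hS⟩ : ∃ S, S = sing (m * (n - j)) := ⟨_, rfl⟩
  have hS1 : 1 ≤ S := by rw [hS]; exact Pool.Agent.W93.GB.one_le_sing _
  rw [← hS] at hkey ⊢
  obtain ⟨Q, hQ⟩ : ∃ Q, Q = (n : ℝ) / m := ⟨_, rfl⟩
  rw [← hQ] at f1 f2 hnm2 ⊢
  have hQ0 : 0 < Q := by linarith
  obtain ⟨g, hg⟩ : ∃ g, g = S / L ^ 2 := ⟨_, rfl⟩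
  have hg0 : 0 < g := by rw [hg]; positivity
  have e3 : S * ((M' : ℝ) / L ^ 2) = g * M' := by rw [hg]; ring
  have e4 : S * (Q / L ^ 2) = g * Q := by rw [hg]; ring
  rw [e3] at hkey
  rw [e4]
  have f3 : g * M' ≤ g * Q := mul_le_mul_of_nonneg_left f1 hg0.le
  have f4 : g * (Q - M') ≤ g * (ε / 3 * Q) := by
    apply mul_le_mul_of_nonneg_left _ hg0.le
    have f5 : 6 / ε ≤ Q := by linarith
    rw [div_le_iff₀ hε] at f5
    linarith
  have f6 : ε / 3 * (g * M') ≤ ε / 3 * (g * Q) := mul_le_mul_of_nonneg_left f3 (by positivity)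
  have f7 := abs_le.1 hkey
  have f8 : 0 < g * Q := by positivity
  refine ⟨?_, f8⟩
  rw [abs_le]
  have f9 : 0 < ε * (g * Q) := by positivity
  constructor <;> nlinarith [f7.1, f7.2]

theorem holds_of (ε : ℝ) (hε : 0 < ε) (hε1 : ε < 1) (N M n : ℕ)
    (h : ∀ m j : ℕ, 1 ≤ m → m ≤ M → j < m → j < n ∧ (Nat.Coprime (n - j) m ∧ Odd (n - j + m) →
      |(repsj m n j : ℝ) - sing (m * (n - j)) * ((n : ℝ) / m / Real.log N ^ 2)| ≤ ε * (sing (m * (n - j)) * ((n : ℝ) / m / Real.log N ^ 2)) ∧
      0 < sing (m * (n - j)) * ((n : ℝ) / m / Real.log N ^ 2))) : Holds ε M N n := by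
  classical
  intro m hm hmM
  constructor
  · rw [reps_eq m n hm]
    push_cast
    unfold main
    have e1 : ∑ j ∈ range m, (repsj m n j : ℝ) = ∑ j ∈ offsets m n, (repsj m n j : ℝ) +
        ∑ j ∈ (range m).filter (fun j => ¬ (Nat.Coprime (n - j) m ∧ Odd (n - j + m))), (repsj m n j : ℝ) := by
      unfold offsets
      exact (sum_filter_add_sum_filter_not (range m) (fun j => Nat.Coprime (n - j) m ∧ Odd (n - j + m)) _).symm
    rw [e1]
    obtain ⟨b, hb⟩ : ∃ b, b = ∑ j ∈ (range m).filter (fun j => ¬ (Nat.Coprime (n - j) m ∧ Odd (n - j + m))), (repsj m n j : ℝ) := ⟨_, rfl⟩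
    rw [← hb]
    have hb0 : 0 ≤ b := by rw [hb]; exact sum_nonneg fun _ _ => Nat.cast_nonneg _
    have hb1 : b ≤ 2 * m := by
      have q1 : ∀ j ∈ (range m).filter (fun j => ¬ (Nat.Coprime (n - j) m ∧ Odd (n - j + m))), (repsj m n j : ℝ) ≤ 2 := by
        intro j hj
        rw [mem_filter, mem_range] at hj
        have := bad_le m n j hm hj.1 (h m j hm hmM hj.1).1 hj.2
        exact_mod_cast this
      rw [hb]
      refine (sum_le_sum q1).trans ?_
      rw [sum_const, nsmul_eq_mul]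
      have q2 : (((range m).filter (fun j => ¬ (Nat.Coprime (n - j) m ∧ Odd (n - j + m)))).card : ℝ) ≤ m := by
        have := card_filter_le (range m) (fun j => ¬ (Nat.Coprime (n - j) m ∧ Odd (n - j + m)))
        rw [card_range] at this
        exact_mod_cast this
      linarith
    have hoff : |∑ j ∈ offsets m n, (repsj m n j : ℝ) - ∑ j ∈ offsets m n, sing (m * (n - j)) * ((n : ℝ) / m / Real.log N ^ 2)| ≤
        ε * ∑ j ∈ offsets m n, sing (m * (n - j)) * ((n : ℝ) / m / Real.log N ^ 2) := by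
      rw [← sum_sub_distrib, mul_sum]
      refine (abs_sum_le_sum_abs _ _).trans (sum_le_sum fun j hj => ?_)
      unfold offsets at hj
      rw [mem_filter, mem_range] at hj
      exact ((h m j hm hmM hj.1).2 hj.2).1
    have h3 := abs_le.1 hoff
    rw [abs_le]
    constructor <;> linarith [h3.1, h3.2]
  · intro hadm
    obtain ⟨j, hj, h1, h2⟩ := loc m n hm hadm
    obtain ⟨h3, h4⟩ := h m j hm hmM hj
    obtain ⟨h5, h6⟩ := h4 ⟨h1, h2⟩
    have h7 : 0 < (repsj m n j : ℝ) := by
      have := (abs_le.1 h5).1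
      have h8 := mul_lt_mul_of_pos_right hε1 h6
      linarith
    have h8 : 0 < repsj m n j := by exact_mod_cast h7
    unfold repsj at h8
    rw [card_pos] at h8
    obtain ⟨p, hp⟩ := h8
    rw [mem_filter, mem_range] at hp
    exact ⟨p, hp.1, hp.2.1, hp.2.2.1⟩

open Classical in
/-- Let `A`, `B`, `M`, `W`, `U`, `K`, the integer `κ ≠ 0`, `0 < ε < 1` and `δ > 0` be fixed, let `N` be large,
`1 ≤ y ≤ log ^ K N`, and let `c` be an arbitrary integer with `|c| ≤ B N`.

(1) Let `P` be an arbitrary set of primes which are at most `y`, with at least `y ^ (1 / 2 + δ) log N` elements. Then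
for all the integers `v ≤ N` composed of primes from `P`, up to a proportion of at most `1 / log ^ U N` of them,
all `n = c + κ v + r` with `|r| ≤ (log N) ^ A` and `N / (log N) ^ W ≤ n ≤ B N` satisfy `Holds`: for all `m ≤ M` the number of
the primes `p < n` for which `⌊(n - p) / m⌋` is prime is asymptotically the expected number, and there are such primes if the
pair `(m, n)` is admissible. (There can be as few as about `N ^ (1 / 2 + δ)` such integers `v`.)

(2) In particular this holds for all the `y`-smooth integers `v ≤ N`, up to a proportion of at most `1 / log ^ U N` of them,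
if `y ≥ log ^ (2 + δ) N`. (For example for all `n` near `v` itself.) -/
theorem result (A B M W U K : ℕ) (κ : ℤ) (hκ : κ ≠ 0) (ε : ℝ) (hε : 0 < ε) (hε1 : ε < 1) (δ : ℝ) (hδ : 0 < δ) :
    ∃ N₀ : ℕ, ∀ N, N₀ ≤ N → ∀ y : ℕ, 1 ≤ y → (y : ℝ) ≤ Real.log N ^ K → ∀ c : ℤ, |c| ≤ B * N →
      (∀ P : Finset ℕ, (∀ p ∈ P, p.Prime ∧ p ≤ y) → (y : ℝ) ^ (1 / 2 + δ) * Real.log N ≤ P.card →
        (((composedOf P N).filter fun v : ℕ => ∃ r : ℤ, |(r : ℝ)| ≤ Real.log N ^ A ∧ ∃ n : ℕ, (n : ℤ) = c + κ * v + r ∧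
          (N : ℝ) / Real.log N ^ W ≤ n ∧ n ≤ B * N ∧ ¬ Holds ε M N n).card : ℝ) ≤ ((composedOf P N).card : ℝ) / Real.log N ^ U) ∧
      (Real.log N ^ (2 + δ) ≤ y →
        (((smooth y N).filter fun v : ℕ => ∃ r : ℤ, |(r : ℝ)| ≤ Real.log N ^ A ∧ ∃ n : ℕ, (n : ℤ) = c + κ * v + r ∧
          (N : ℝ) / Real.log N ^ W ≤ n ∧ n ≤ B * N ∧ ¬ Holds ε M N n).card : ℝ) ≤ ((smooth y N).card : ℝ) / Real.log N ^ U) := by
  obtain ⟨N₀, h0⟩ := Pool.Agent.N469.TL.both δ hδ K U _
    (fun δ hδ => Pool.Agent.N469.LP.sm_multi (ε / 3) (by positivity) κ hκ K B (A + 1) 0 (W + 1) δ hδ M U)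
  obtain ⟨N₁, h1⟩ := one_offset ε hε B M W
  obtain ⟨N₂, h2⟩ := Pool.Agent.H373R2.T7.ev_L' (M + 2)
  refine ⟨N₀ + N₁ + N₂, fun N hN y hy hy' c hc => ?_⟩
  refine h0 N (by omega) y hy hy' (fun v : ℕ => ∃ r : ℤ, |(r : ℝ)| ≤ Real.log N ^ A ∧ ∃ n : ℕ, (n : ℤ) = c + κ * v + r ∧
          (N : ℝ) / Real.log N ^ W ≤ n ∧ n ≤ B * N ∧ ¬ Holds ε M N n) (fun v => inferInstance) ⟨c, hc, ?_⟩
  rintro v ⟨r, hr, n, hnr, hn1, hn2, hnot⟩
  have hL := h2 N (by omega)
  by_contra hcon
  push Not at hcon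
  apply hnot
  apply holds_of ε hε hε1
  intro m j hm hmM hj
  obtain ⟨g1, g2⟩ := h1 N (by omega) n hn1 hn2 m j hm hmM hj
  refine ⟨g1, fun hcp => g2 ?_⟩
  obtain ⟨hcop, hodd⟩ := hcp
  have e : c + κ * (v : ℤ) + (r - j) = ((n - j : ℕ) : ℤ) := by
    rw [Nat.cast_sub g1.le, hnr]
    ring
  have hrj : |((r - j : ℤ) : ℝ)| ≤ Real.log N ^ (A + 1) := by
    push_cast
    have q1 : |(r : ℝ) - j| ≤ |(r : ℝ)| + j := by
      have := abs_sub (r : ℝ) (j : ℝ)
      rwa [abs_of_nonneg (Nat.cast_nonneg j : (0 : ℝ) ≤ j)] at this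
    have q2 : (j : ℝ) ≤ M := by exact_mod_cast (by omega : j ≤ M)
    have q3 : 1 ≤ Real.log N ^ A := one_le_pow₀ (by
      have : (0 : ℝ) ≤ M := Nat.cast_nonneg _
      linarith)
    have q4 : (0 : ℝ) ≤ M := Nat.cast_nonneg _
    rw [pow_succ]
    nlinarith
  have h3 := hcon m hm hmM (r - j) hrj
  rw [e] at h3
  apply h3
  · exact_mod_cast (by omega : n - j ≠ 0)
  · rw [Int.gcd_comm, Int.gcd_neg, Int.gcd_natCast_natCast]
    exact hcop
  · rw [neg_mul, dvd_neg]
    have q1 : 2 ∣ m * (n - j) := by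
      rcases Nat.even_or_odd m with h5 | h5
      · exact Dvd.dvd.mul_right h5.two_dvd _
      · have h6 : Even (n - j) := by
          rw [← Nat.not_odd_iff_even]
          intro h7
          exact (Nat.not_even_iff_odd.2 hodd) (h7.add_odd h5)
        exact Dvd.dvd.mul_left h6.two_dvd _
    exact_mod_cast q1

end Pool.Agent.Results.MP_4011c3_nt.SmoothNumbers
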